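import Pool.Agent.H31.GUF.Targets

/-!
# Row B2 of the board guf_modules: the uniformity norm of order two
-/

set_option autoImplicit false

open Finset Filter Topology

namespace Pool.Agent.H31.GUF

open Pool.Agent.H31.DP
open Pool.Agent.H91.LF (lz)
open Pool.Agent.H28.GU (Gw gG hat T_HF Fc)

private theorem abs_FF_le' {l : ℕ} (h : Fin l → ℕ) (p : ℕ) (y : ℤ) : |FF h p y| ≤ 1 := by
  unfold FF
  rw [Finset.abs_prod]
  refine Finset.prod_le_one (fun _ _ => abs_nonneg _) fun i _ => ?_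
  unfold lz
  split_ifs
  · simp
  · unfold Pool.Agent.H24.MR.lam
    simp

private theorem sum_val {E : Type*} [AddCommMonoid E] (N q : ℕ) [NeZero q] (hq : N < q)
    (G : ℕ → E) :
    ∑ x : ZMod q, (if 1 ≤ x.val ∧ x.val ≤ N then G x.val else 0) = ∑ n ∈ Finset.Icc 1 N, G n := by
  rw [← Finset.sum_filter]
  refine Finset.sum_bij' (fun x _ => x.val) (fun n _ => (n : ZMod q)) ?_ ?_ ?_ ?_ ?_
  · intro x hx
    rw [Finset.mem_Icc]
    exact (Finset.mem_filter.mp hx).2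
  · intro n hn
    rw [Finset.mem_Icc] at hn
    rw [Finset.mem_filter]
    refine ⟨Finset.mem_univ _, ?_⟩
    rw [ZMod.val_natCast_of_lt (by omega)]
    exact hn
  · intro x hx
    simp
  · intro n hn
    rw [Finset.mem_Icc] at hn
    exact ZMod.val_natCast_of_lt (by omega)
  · intro x hx
    rfl

private theorem hat_eq {l : ℕ} (h : Fin l → ℕ) (N q : ℕ) [NeZero q] (hq : N < q) (ξ : ZMod q) :
    hat (gG q h N) ξ = Sg h N ((ξ.val : ℝ) / q) := by
  unfold hat Sg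
  rw [← sum_val N q hq]
  refine Finset.sum_congr rfl fun x _ => ?_
  unfold gG Fc
  by_cases hx : 1 ≤ x.val ∧ x.val ≤ N
  · have h1 : (1 : ℤ) ≤ (x.val : ℤ) ∧ (x.val : ℤ) ≤ (N : ℤ) := by omega
    rw [if_pos h1, if_pos hx]
    congr 1
    have h2 : x * ξ = ((((x.val : ℤ) * (ξ.val : ℤ) : ℤ)) : ZMod q) := by
      push_cast
      simp
    rw [h2, ZMod.stdAddChar_coe]
    unfold ee
    congr 1
    push_cast
    ring
  · have h1 : ¬ ((1 : ℤ) ≤ (x.val : ℤ) ∧ (x.val : ℤ) ≤ (N : ℤ)) := by omega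
    rw [if_neg h1, if_neg hx]
    simp

theorem pf_B2 (hHF : T_HF) (hBR : F_BR) : F_B2 := by
  intro l h N E hE
  have hq : N < 2 * N + 1 := by omega
  rw [← hBR l h 2 N (2 * N + 1) (by omega)]
  have h4 := hHF.2 (2 * N + 1) (gG (2 * N + 1) h N)
  have h2 := hHF.1 (2 * N + 1) (gG (2 * N + 1) h N)
  have hE0 : 0 ≤ E := le_trans (norm_nonneg _) (hE 0)
  have h5 : ∑ n : ZMod (2 * N + 1), (gG (2 * N + 1) h N n) ^ 2 ≤ N := by
    have h6 : ∀ n : ZMod (2 * N + 1), (gG (2 * N + 1) h N n) ^ 2 ≤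
        (if 1 ≤ n.val ∧ n.val ≤ N then (1 : ℝ) else 0) := by
      intro n
      unfold gG Fc
      by_cases hx : 1 ≤ n.val ∧ n.val ≤ N
      · have h1 : (1 : ℤ) ≤ (n.val : ℤ) ∧ (n.val : ℤ) ≤ (N : ℤ) := by omega
        rw [if_pos h1, if_pos hx]
        rw [sq_le_one_iff_abs_le_one]
        exact abs_FF_le' h 1 _
      · have h1 : ¬ ((1 : ℤ) ≤ (n.val : ℤ) ∧ (n.val : ℤ) ≤ (N : ℤ)) := by omega
        rw [if_neg h1, if_neg hx]
        simp
    refine le_trans (Finset.sum_le_sum fun n _ => h6 n) ?_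
    rw [sum_val N (2 * N + 1) hq (fun _ => (1 : ℝ))]
    simp
  have h7 : ∑ ξ : ZMod (2 * N + 1), ‖hat (gG (2 * N + 1) h N) ξ‖ ^ 4 ≤
      E ^ 2 * ∑ ξ : ZMod (2 * N + 1), ‖hat (gG (2 * N + 1) h N) ξ‖ ^ 2 := by
    rw [Finset.mul_sum]
    refine Finset.sum_le_sum fun ξ _ => ?_
    have h8 : ‖hat (gG (2 * N + 1) h N) ξ‖ ≤ E := by
      rw [hat_eq h N (2 * N + 1) hq]
      exact hE _
    have h9 : ‖hat (gG (2 * N + 1) h N) ξ‖ ^ 4 =
        ‖hat (gG (2 * N + 1) h N) ξ‖ ^ 2 * ‖hat (gG (2 * N + 1) h N) ξ‖ ^ 2 := by ring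
    rw [h9]
    exact mul_le_mul_of_nonneg_right (pow_le_pow_left₀ (norm_nonneg _) h8 2) (by positivity)
  have hqR : (0 : ℝ) < ((2 * N + 1 : ℕ) : ℝ) := by positivity
  rw [h4, h2] at h7
  have h10 : ((2 * N + 1 : ℕ) : ℝ) * Gw 2 (gG (2 * N + 1) h N) ≤
      ((2 * N + 1 : ℕ) : ℝ) * (N * E ^ 2) := by
    refine le_trans h7 ?_
    have := mul_le_mul_of_nonneg_left h5 (mul_nonneg (sq_nonneg E) hqR.le)
    nlinarith [this]
  exact le_of_mul_le_mul_left h10 hqR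

end Pool.Agent.H31.GUF
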