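import Pool.Agent.H31.GUF.Targets

/-!
# Row CG of the board guf_modules: the chain of the steps
-/

set_option autoImplicit false

open Finset Filter Topology

namespace Pool.Agent.H31.GUF

open Pool.Agent.H31.DP

private theorem minor_mono {K K' N : ℕ} {θ : ℝ} (h : Minor K N θ) (hK : K' ≤ K) :
    Minor K' N θ := by
  intro q h1 h2 a
  exact le_trans (by exact_mod_cast hK) (h q h1 (h2.trans hK) a)

private theorem union_le (A B C : ℕ → Prop) [DecidablePred A] [DecidablePred B]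
    [DecidablePred C] (x y : ℕ) (h : ∀ N ∈ Finset.Icc x y, A N → B N ∨ C N) :
    ∑ N ∈ (Finset.Icc x y).filter A, (1 / (N : ℝ)) ≤
      ∑ N ∈ (Finset.Icc x y).filter B, (1 / (N : ℝ)) +
        ∑ N ∈ (Finset.Icc x y).filter C, (1 / (N : ℝ)) := by
  rw [Finset.sum_filter, Finset.sum_filter, Finset.sum_filter, ← Finset.sum_add_distrib]
  refine Finset.sum_le_sum fun N hN => ?_
  have h0 : (0 : ℝ) ≤ 1 / (N : ℝ) := by positivity
  have h1 := h N hN
  by_cases hA : A N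
  · rcases h1 hA with hB | hC
    · rw [if_pos hA, if_pos hB]
      split_ifs <;> linarith
    · rw [if_pos hA, if_pos hC]
      split_ifs <;> linarith
  · rw [if_neg hA]
    split_ifs <;> linarith

open Classical in
private theorem chain (hST : F_ST) (l : ℕ) (h : Fin l → ℕ) (k : ℕ) : ∀ (δ ρ : ℝ), 0 < δ → 0 < ρ →
    ∃ ε : ℝ, 0 < ε ∧ ∃ K : ℕ, ∀ x y : ℕ, 0 < x → K * x ≤ y →
      ∑ N ∈ (Finset.Icc x y).filter (fun N : ℕ => δ ≤ UU (k + 2) N (gl h) ∧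
        UU 2 N (gl h) < ε), (1 / (N : ℝ)) ≤ ρ * Real.log ((y : ℝ) / x) := by
  induction k with
  | zero =>
    intro δ ρ hδ hρ
    refine ⟨δ, hδ, 1, fun x y hx hy => ?_⟩
    rw [Finset.filter_false_of_mem]
    · rw [Finset.sum_empty]
      refine mul_nonneg hρ.le (Real.log_nonneg ?_)
      rw [le_div_iff₀ (by exact_mod_cast hx)]
      exact_mod_cast hy
    · rintro N - ⟨h1, h2⟩
      rw [zero_add] at h1
      linarith
  | succ k ih =>
    intro δ ρ hδ hρ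
    obtain ⟨δ', hδ', K₁, hK₁⟩ := hST (k + 1) l h δ (ρ / 2) (by omega) hδ (by linarith)
    obtain ⟨ε, hε, K₂, hK₂⟩ := ih δ' (ρ / 2) hδ' (by linarith)
    refine ⟨ε, hε, max K₁ K₂, fun x y hx hy => ?_⟩
    have h1 := hK₁ x y hx (le_trans (Nat.mul_le_mul_right _ (le_max_left _ _)) hy)
    have h2 := hK₂ x y hx (le_trans (Nat.mul_le_mul_right _ (le_max_right _ _)) hy)
    refine le_trans (union_le (fun N : ℕ => δ ≤ UU (k + 1 + 2) N (gl h) ∧
        UU 2 N (gl h) < ε) (fun N : ℕ => δ ≤ UU (k + 1 + 2) N (gl h) ∧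
        UU (k + 1 + 1) N (gl h) < δ') (fun N : ℕ => δ' ≤ UU (k + 2) N (gl h) ∧
        UU 2 N (gl h) < ε) x y ?_) (le_trans (add_le_add h1 h2) (by linarith))
    rintro N - ⟨h3, h4⟩
    by_cases h5 : UU (k + 1 + 1) N (gl h) < δ'
    · exact Or.inl ⟨h3, h5⟩
    · exact Or.inr ⟨not_lt.mp h5, h4⟩

theorem pf_CG (hST : F_ST) (hB2 : F_B2) (hT1 : StatementT1) : F_CG := by
  classical
  intro k l h δ ρ hk hδ hρ
  obtain ⟨k, rfl⟩ := Nat.exists_eq_add_of_le' hk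
  obtain ⟨ε₁, hε₁, K₁, hK₁⟩ := chain hST l h k δ (ρ / 2) hδ (by linarith)
  set ε : ℝ := Real.sqrt ε₁ / 2 with hε
  have hs : 0 < Real.sqrt ε₁ := Real.sqrt_pos.mpr hε₁
  have hε0 : 0 < ε := by rw [hε]; linarith
  have hε2 : ε ^ 2 < ε₁ := by
    rw [hε, div_pow, Real.sq_sqrt hε₁.le]
    linarith
  obtain ⟨K₂, hK₂⟩ := hT1 l h ε (ρ / 2) hε0 (by linarith)
  refine ⟨ε, hε0, max K₁ K₂, fun x y hx hy => ?_⟩
  have h1 := hK₁ x y hx (le_trans (Nat.mul_le_mul_right _ (le_max_left _ _)) hy)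
  have h2 := hK₂ x y hx (le_trans (Nat.mul_le_mul_right _ (le_max_right _ _)) hy)
  refine le_trans (union_le (fun N : ℕ => δ ≤ UU (k + 2) N (gl h) ∧
      ∀ θ : ℝ, ¬ Minor (max K₁ K₂) N θ → ‖Sg h N θ‖ < ε * N) (fun N : ℕ => δ ≤ UU (k + 2) N (gl h) ∧
      UU 2 N (gl h) < ε₁) (fun N : ℕ => ∃ θ : ℝ, Minor K₂ N θ ∧ ε * N < ‖Sg h N θ‖) x y ?_)
      (le_trans (add_le_add h1 h2) (by linarith))
  rintro N hN ⟨h3, h4⟩
  have hN0 : (0 : ℝ) < N := by
    exact_mod_cast lt_of_lt_of_le hx (Finset.mem_Icc.mp hN).1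
  by_cases h5 : UU 2 N (gl h) < ε₁
  · exact Or.inl ⟨h3, h5⟩
  · right
    have h6 : ∃ θ : ℝ, ε * N < ‖Sg h N θ‖ := by
      by_contra hcon
      push Not at hcon
      have h7 := hB2 l h N (ε * N) hcon
      apply h5
      unfold UU
      rw [div_lt_iff₀ (by positivity)]
      refine lt_of_le_of_lt h7 ?_
      have h8 : (N : ℝ) * (ε * N) ^ 2 = ε ^ 2 * (N : ℝ) ^ (2 + 1) := by ring
      rw [h8]
      exact mul_lt_mul_of_pos_right hε2 (by positivity)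
    obtain ⟨θ, hθ⟩ := h6
    refine ⟨θ, ?_, hθ⟩
    by_contra hcon
    have h7 := h4 θ (fun h8 => hcon (minor_mono h8 (le_max_right _ _)))
    linarith

end Pool.Agent.H31.GUF
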