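import Pool.Agent.H31.GUF.Targets

/-!
# Row CH of the board guf_modules: no obstruction on progressions
-/

set_option autoImplicit false

open Finset Filter Topology

namespace Pool.Agent.H31.GUF

open Pool.Agent.H31.DP
open Pool.Agent.H91.LF (lz)

private theorem minor_mono' {K K' N : ℕ} {θ : ℝ} (h : Minor K N θ) (hK : K' ≤ K) :
    Minor K' N θ := by
  intro q h1 h2 a
  exact le_trans (by exact_mod_cast hK) (h q h1 (h2.trans hK) a)

private theorem abs_FF_le {l : ℕ} (h : Fin l → ℕ) (p : ℕ) (y : ℤ) : |FF h p y| ≤ 1 := by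
  unfold FF
  rw [Finset.abs_prod]
  refine Finset.prod_le_one (fun _ _ => abs_nonneg _) fun i _ => ?_
  unfold lz
  split_ifs
  · simp
  · unfold Pool.Agent.H24.MR.lam
    simp

private theorem harm_le (N₁ x y : ℕ) (hx : 0 < x) (P : ℕ → Prop) [DecidablePred P]
    (hP : ∀ N, P N → N < N₁) :
    ∑ N ∈ (Finset.Icc x y).filter P, (1 / (N : ℝ)) ≤ N₁ := by
  calc ∑ N ∈ (Finset.Icc x y).filter P, (1 / (N : ℝ))
      ≤ ∑ N ∈ (Finset.Icc x y).filter P, (1 : ℝ) := by
        refine Finset.sum_le_sum fun N hN => ?_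
        have h1 : (1 : ℝ) ≤ N := by
          have := (Finset.mem_Icc.mp (Finset.mem_filter.mp hN).1).1
          exact_mod_cast le_trans hx this
        rw [div_le_one (by linarith)]
        exact h1
    _ = (((Finset.Icc x y).filter P).card : ℝ) := by simp
    _ ≤ ((Finset.range N₁).card : ℝ) := by
        have : ((Finset.Icc x y).filter P) ⊆ Finset.range N₁ := by
          intro N hN
          rw [Finset.mem_range]
          exact hP N (Finset.mem_filter.mp hN).2
        exact_mod_cast Finset.card_le_card this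
    _ = N₁ := by simp

theorem pf_CH (hCG : F_CG) (hM1 : StatementM1) : F_CH := by
  classical
  intro k l h δ ρ hk hδ hρ
  obtain ⟨ε, hε, K₀, hK₀⟩ := hCG k l h δ (ρ / 2) hk hδ (by linarith)
  set L : ℕ := max 1 K₀ with hL
  have hL1 : 1 ≤ L := le_max_left _ _
  have hL0 : (0 : ℝ) < L := by exact_mod_cast hL1
  set A : ℝ := 1 + 2 * Real.pi * L with hA
  have hA0 : 0 < A := by positivity
  obtain ⟨J, hJ⟩ := exists_nat_gt (4 * A / ε)
  have hJ0 : 0 < J := by
    have h1 : (0 : ℝ) < J := lt_trans (by positivity) hJ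
    exact_mod_cast h1
  obtain ⟨K₁, hK₁⟩ := exists_nat_gt (4 * A * L / ε)
  obtain ⟨N₁, hN₁⟩ := exists_nat_gt (4 * A / ε)
  obtain ⟨K₂, hK₂⟩ := exists_nat_gt (Real.exp (2 * N₁ / ρ))
  have hK2 : 0 < K₂ := by
    have h1 : (0 : ℝ) < K₂ := lt_trans (Real.exp_pos _) hK₂
    exact_mod_cast h1
  set K : ℕ := max (max L K₁) K₂ with hK
  have hKL : L ≤ K := le_trans (le_max_left _ _) (le_max_left _ _)
  have hKK1 : K₁ ≤ K := le_trans (le_max_right _ _) (le_max_left _ _)
  have hKK2 : K₂ ≤ K := le_max_right _ _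
  have hK0 : 0 < K := lt_of_lt_of_le hL1 hKL
  refine ⟨K, hK0, fun x y hx hy => ?_⟩
  have hx0 : (0 : ℝ) < x := by exact_mod_cast hx
  have hxy : (K : ℝ) ≤ (y : ℝ) / x := by
    rw [le_div_iff₀ hx0]
    exact_mod_cast hy
  have h1 := hK₀ x y hx (le_trans (Nat.mul_le_mul_right _ (le_trans (le_max_right _ _) hKL)) hy)
  have hlog : (N₁ : ℝ) ≤ ρ / 2 * Real.log ((y : ℝ) / x) := by
    have h2 : Real.exp (2 * N₁ / ρ) ≤ (y : ℝ) / x := by
      refine le_trans hK₂.le (le_trans ?_ hxy)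
      exact_mod_cast hKK2
    have h3 : 2 * N₁ / ρ ≤ Real.log ((y : ℝ) / x) := by
      rw [Real.le_log_iff_exp_le (lt_of_lt_of_le (Real.exp_pos _) h2)]
      exact h2
    rw [div_le_iff₀ hρ] at h3
    linarith
  have key : ∀ N ∈ Finset.Icc x y, (AS h K N ∧ δ ≤ UU k N (gl h)) →
      (δ ≤ UU k N (gl h) ∧ ∀ θ : ℝ, ¬ Minor K₀ N θ → ‖Sg h N θ‖ < ε * N) ∨ N < N₁ := by
    rintro N hN ⟨h2, h3⟩
    by_cases h4 : N < N₁
    · exact Or.inr h4
    left
    refine ⟨h3, fun θ hθ => ?_⟩
    have hNN : 0 < N := lt_of_lt_of_le hx (Finset.mem_Icc.mp hN).1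
    have hN0 : (0 : ℝ) < N := by exact_mod_cast hNN
    have hNN1 : (N₁ : ℝ) ≤ N := by exact_mod_cast not_lt.mp h4
    have h5 : ¬ Minor L N θ := fun h6 => hθ (minor_mono' h6 (le_max_right _ _))
    have h6 := hM1 (fun n : ℕ => ((FF h 1 (n : ℤ) : ℝ) : ℂ))
      (fun n => by rw [Complex.norm_real]; exact abs_FF_le h 1 n) L J N (1 / K) hL1 hJ0 hNN
      (by
        intro q hq1 hq2 n₀ _ i hi
        have h7 := h2 q n₀ (i * N / J) hq1 (le_trans hq2 hKL)
          (Nat.div_le_of_le_mul (Nat.mul_le_mul_right _ hi))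
        rw [← Complex.ofReal_sum, Complex.norm_real, Real.norm_eq_abs]
        refine le_trans h7 (le_of_eq ?_)
        ring) θ h5
    refine lt_of_le_of_lt h6 ?_
    have hKR : (0 : ℝ) < K := by exact_mod_cast hK0
    have e1 : A * (L * (1 / K) * N) < ε / 4 * N := by
      have : A * (L * (1 / K)) < ε / 4 := by
        have h8 : 4 * A * L / ε < K := lt_of_lt_of_le hK₁ (by exact_mod_cast hKK1)
        rw [div_lt_iff₀ hε] at h8
        have h9 : A * (L * (1 / K)) = A * L / K := by ring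
        rw [h9, div_lt_iff₀ hKR]
        linarith
      have h10 := mul_lt_mul_of_pos_right this hN0
      linarith
    have e2 : A * (N / J) < ε / 4 * N := by
      have hJR : (0 : ℝ) < J := by exact_mod_cast hJ0
      have : A / J < ε / 4 := by
        rw [div_lt_iff₀ hε] at hJ
        rw [div_lt_iff₀ hJR]
        linarith
      have h10 := mul_lt_mul_of_pos_right this hN0
      have h11 : A * (N / J) = A / J * N := by ring
      linarith
    have e3 : A * 1 < ε / 4 * N := by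
      rw [div_lt_iff₀ hε] at hN₁
      have := mul_le_mul_of_nonneg_left hNN1 hε.le
      linarith
    have e4 : (1 + 2 * Real.pi * L) * (L * (1 / K) * N + N / J + 1) =
        A * (L * (1 / K) * N) + A * (N / J) + A * 1 := by
      rw [hA]
      ring
    rw [e4]
    nlinarith [hε, hN0, mul_pos hε hN0]
  have h2 : ∑ N ∈ (Finset.Icc x y).filter (fun N : ℕ => AS h K N ∧ δ ≤ UU k N (gl h)),
      (1 / (N : ℝ)) ≤
      ∑ N ∈ (Finset.Icc x y).filter (fun N : ℕ => δ ≤ UU k N (gl h) ∧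
        ∀ θ : ℝ, ¬ Minor K₀ N θ → ‖Sg h N θ‖ < ε * N), (1 / (N : ℝ)) +
      ∑ N ∈ (Finset.Icc x y).filter (fun N => N < N₁), (1 / (N : ℝ)) := by
    rw [Finset.sum_filter, Finset.sum_filter, Finset.sum_filter, ← Finset.sum_add_distrib]
    refine Finset.sum_le_sum fun N hN => ?_
    have h0 : (0 : ℝ) ≤ 1 / (N : ℝ) := by positivity
    have h3 := key N hN
    by_cases hA : AS h K N ∧ δ ≤ UU k N (gl h)
    · rcases h3 hA with hB | hC
      · rw [if_pos hA, if_pos hB]
        split_ifs <;> linarith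
      · rw [if_pos hA, if_pos hC]
        split_ifs <;> linarith
    · rw [if_neg hA]
      split_ifs <;> linarith
  have h3 := harm_le N₁ x y hx (fun N => N < N₁) (fun _ h => h)
  have h4 : ρ / 2 * Real.log ((y : ℝ) / x) + ρ / 2 * Real.log ((y : ℝ) / x) =
      ρ * Real.log ((y : ℝ) / x) := by ring
  linarith

end Pool.Agent.H31.GUF
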