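import Pool.Agent.H31.GUF.Targets

/-!
# Row PL of the board guf_modules: pairs in residue classes (second version)
-/

set_option autoImplicit false

open Finset Filter Topology

namespace Pool.Agent.H31.GUF

open Pool.Agent.H31.DP
open Pool.Agent.H91.LF (StatementLAM Ind frm wt lz)

open Classical in
private theorem bindcast_eq (s : Finset ℕ) :
    ((do let a ← s; pure (a : ℤ)) : Finset ℤ) = s.image (fun a : ℕ => (a : ℤ)) := by
  ext v
  simp only [Finset.bind_def, Finset.mem_sup, Finset.mem_image]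
  constructor
  · rintro ⟨a, ha, h⟩
    have h' : v ∈ ({(a : ℤ)} : Finset ℤ) := h
    rw [Finset.mem_singleton] at h'
    exact ⟨a, ha, h'.symm⟩
  · rintro ⟨a, ha, h⟩
    refine ⟨a, ha, ?_⟩
    show v ∈ ({(a : ℤ)} : Finset ℤ)
    rw [Finset.mem_singleton, h]

open Classical in
private theorem sum_bindcast (s : Finset ℕ) (Q : ℤ → Prop) [DecidablePred Q] (f : ℤ → ℝ) :
    ∑ p ∈ ((do let a ← s; pure (a : ℤ)) : Finset ℤ).filter Q, f p =
      ∑ p ∈ s.filter (fun p : ℕ => Q p), f p := by
  rw [bindcast_eq, Finset.filter_image, Finset.sum_image]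
  intro a _ b _ hab
  exact Nat.cast_injective hab

theorem pf_PL (hLAM : StatementLAM) : F_PL := by
  classical
  intro l h q n₀ ρ hl hinj hq hρ
  have hInd : ∃ j : Fin l, Ind (fun i => (h i : ℤ)) (fun _ : Fin l => (fun k : Fin 0 => (0 : ℤ))) j := by
    rcases hl with rfl | rfl
    · refine ⟨0, 1, 1 - (h 0 : ℤ), fun k => 0, fun i hi => absurd (Subsingleton.elim i 0) hi, ?_⟩
      simp
    · refine ⟨0, 1, -(h 1 : ℤ), fun k => 0, fun i hi => ?_, ?_⟩
      · have : i = 1 := by omega
        subst this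
        simp
      · have h1 : h 0 ≠ h 1 := fun h2 => by simpa using hinj h2
        simp only [Nat.cast_one, one_mul, Finset.univ_eq_empty, Finset.sum_empty, add_zero, ne_eq]
        omega
  obtain ⟨j, hj⟩ := hInd
  obtain ⟨T₀, hT₀⟩ := hLAM 0 l (fun i => (h i : ℤ)) (fun _ => (fun k : Fin 0 => (0 : ℤ))) j q
    (n₀ : ℤ) (fun k => 0) hq hj ρ hρ
  obtain ⟨K, hK⟩ := hT₀ T₀ le_rfl
  refine ⟨K, fun x y hx hy => ?_⟩
  have h1 := hK x y hx hy
  have hb : (Pool.Agent.H91.LF.box 0 T₀).filter (fun t => ∀ l, (t l : ℤ) ≡ (0 : ℤ) [ZMOD (q : ℤ)]) =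
      {(fun k => k.elim0 : Fin 0 → ℕ)} := by
    ext t
    simp only [Pool.Agent.H91.LF.box, Finset.mem_filter, Fintype.mem_piFinset,
      Finset.mem_singleton]
    constructor
    · intro _
      exact Subsingleton.elim _ _
    · intro _
      exact ⟨fun i => i.elim0, fun i => i.elim0⟩
  rw [hb, Finset.sum_singleton] at h1
  simp only [wt, Finset.univ_eq_empty, Finset.prod_empty, one_mul, pow_zero, mul_one] at h1
  refine le_trans (le_of_eq ?_) h1
  refine Finset.sum_congr rfl fun N _ => ?_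
  rw [sum_bindcast]
  refine congrArg (fun z : ℝ => 1 / (N : ℝ) * |z / (N : ℝ)|) ?_
  refine Finset.sum_congr ?_ fun n _ => ?_
  · ext n
    simp only [Finset.mem_filter]
    rw [Int.natCast_modEq_iff]
  · unfold FF
    refine Finset.prod_congr rfl fun i _ => ?_
    refine congrArg lz ?_
    simp [frm]

end Pool.Agent.H31.GUF
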