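import Pool.Agent.H31.GUF.Targets
import Pool.Agent.H66.GUA.Targets2
import Pool.Agent.H28.GUG.Targets
import Pool.Agent.H31.DP.All
import Pool.Agent.H31.DPD.All
import Pool.Agent.H21.LF.Fin
import Pool.Agent.H91.LF.Kat
import Pool.Agent.H1.LF.LAM
import Pool.Agent.H96.GU.DL
import Pool.Agent.H3.GU.HF
import Pool.Agent.H3.GU.C1
import Pool.Agent.H37.GU.C2
import Pool.Agent.H34.GU.BSG
import Pool.Agent.H31.GU.FV
import Pool.Agent.H63.GU.RD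
import Pool.Agent.H34.GU.NR
import Pool.Agent.H61.GU.FR
import Pool.Agent.H37.GU.C3
import Pool.Agent.H13.GU.CL1
import Pool.Agent.H74.GU.CL
import Pool.Agent.H55.GU.BG
import Pool.Agent.H91.GU.BS
import Pool.Agent.H32.GU.CO
import Pool.Agent.H81.GU.ST
import Pool.Agent.H21.GU.IN
import Pool.Agent.H40.GU.BX
import Pool.Agent.H91.GU.BC
import Pool.Agent.H63.GU.VN
import Pool.Agent.H40.GU.PC
import Pool.Agent.H31.GUA.CC
import Pool.Agent.H11.GUA.DL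
import Pool.Agent.H42.GUA.SR
import Pool.Agent.H42.GUA.KR
import Pool.Agent.H61.GUA.LA
import Pool.Agent.H61.GUA.TP
import Pool.Agent.H18.GUA.CN
import Pool.Agent.H83.GUA.EV
import Pool.Agent.H90.GUA.P1
import Pool.Agent.H79.GUA.AF
import Pool.Agent.H32.GUA.SW
import Pool.Agent.H26.GUA.PR
import Pool.Agent.H90.GUA.GZ
import Pool.Agent.H79.GUA.CT
import Pool.Agent.H79.GUA.HO
import Pool.Agent.H18.GUA.DS
import Pool.Agent.H83.GUA.RH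
import Pool.Agent.H46.GUA.GE
import Pool.Agent.H74.GUA.PH
import Pool.Agent.H32.GUA.GI
import Pool.Agent.H88.GU.KN
import Pool.Agent.H66.GUA.GB
import Pool.Agent.H66.GUA.GA
import Pool.Agent.H34.GU.SP
import Pool.Agent.H39.GUF.BR
import Pool.Agent.H50.GUF.ST
import Pool.Agent.H31.GUF.B2
import Pool.Agent.H31.GUF.CG
import Pool.Agent.H31.GUF.CH
import Pool.Agent.H31.GUF.PL
import Pool.Agent.H36.GUF.AP
import Pool.Agent.H34.GUF.NP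
import Pool.Agent.H79.GUF.BF
import Pool.Agent.H79.GUF.LI
import Pool.Agent.H35.GUF.F0
import Pool.Agent.H74.GUF.FN
import Pool.Agent.H33.GUG.BRG
import Pool.Agent.H33.GUG.GVG
import Pool.Agent.H79.GUC.LIG
import Pool.Agent.H18.GUG.F0G
import Pool.Agent.H35.GUG.FNG

/-!
# Gowers uniformity of the pair correlations: assembly (MP_c59857_nt)
-/

set_option autoImplicit false

namespace Pool.Agent.H31.GUF.All

theorem x_LAM : Pool.Agent.H91.LF.StatementLAM := by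
  have hSUP : Pool.Agent.H91.LF.StatementSUP :=
    Pool.Agent.H67.LF.sup_main Pool.Agent.H91.LF.kat_main Pool.Agent.H21.LF.rat_main
  have hA2 : Pool.Agent.H91.LF.StatementA2 := Pool.Agent.H21.LF.a2_main hSUP
  have hUC : Pool.Agent.H91.LF.StatementUC := Pool.Agent.H28.LF.uc_main hA2
  have hUM : Pool.Agent.H91.LF.StatementUM :=
    Pool.Agent.H42.LF.um_main Pool.Agent.H12.LF.ua_main Pool.Agent.H12.LF.ub_main hUC
  have hDEC : Pool.Agent.H91.LF.StatementDEC :=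
    Pool.Agent.H39.LF.dec_main Pool.Agent.H32.LF.ent_main
  have hCORE : Pool.Agent.H91.LF.StatementCORE :=
    Pool.Agent.H91.LF.core_main hDEC Pool.Agent.H33.LF.pe_main
  exact Pool.Agent.H1.LF.lam_main hCORE hUM

theorem c_DL : Pool.Agent.H28.GU.T_DL := Pool.Agent.H96.GU.pf_DL

theorem c_HF : Pool.Agent.H28.GU.T_HF := Pool.Agent.H3.GU.pf_HF

theorem c_C1 : Pool.Agent.H28.GU.T_C1 := Pool.Agent.H3.GU.pf_C1 c_DL c_HF

theorem c_C2 : Pool.Agent.H28.GU.T_C2 := Pool.Agent.H37.GU.pf_C2 c_HF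

theorem c_BSG : Pool.Agent.H28.GU.T_BSG := Pool.Agent.H34.GU.pf_BSG

theorem c_FV : Pool.Agent.H28.GU.T_FV := Pool.Agent.H31.GU.pf_FV

theorem c_RD : Pool.Agent.H28.GU.T_RD := Pool.Agent.H63.GU.pf_RD

theorem c_NR : Pool.Agent.H28.GU.T_NR := Pool.Agent.H34.GU.pf_NR

theorem c_FR : Pool.Agent.H28.GU.T_FR := Pool.Agent.H61.GU.pf_FR c_FV c_RD c_NR

theorem c_C3 : Pool.Agent.H28.GU.T_C3 := Pool.Agent.H37.GU.pf_C3 c_BSG c_FR

theorem c_CL1 : Pool.Agent.H28.GU.T_CL1 := Pool.Agent.H13.GU.pf_CL1 c_DL c_C2 c_C3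

theorem c_CL : Pool.Agent.H28.GU.T_CL := Pool.Agent.H74.GU.pf_CL c_CL1

theorem c_BG : Pool.Agent.H28.GU.T_BG := Pool.Agent.H55.GU.pf_BG c_NR c_HF

theorem c_BS : Pool.Agent.H28.GU.T_BS := Pool.Agent.H91.GU.pf_BS

theorem c_CO : Pool.Agent.H28.GU.T_CO := Pool.Agent.H32.GU.pf_CO c_NR c_BG c_BS

theorem c_ST : Pool.Agent.H28.GU.T_ST := Pool.Agent.H81.GU.pf_ST c_CO

theorem c_IN : Pool.Agent.H28.GU.T_IN := Pool.Agent.H21.GU.pf_IN c_ST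

theorem c_BX : Pool.Agent.H28.GU.T_BX := Pool.Agent.H40.GU.pf_BX

theorem c_BC : Pool.Agent.H28.GU.T_BC := Pool.Agent.H91.GU.pf_BC

theorem c_VN : Pool.Agent.H28.GU.T_VN := Pool.Agent.H63.GU.pf_VN c_DL c_BC

theorem c_PC : Pool.Agent.H28.GU.T_PC := Pool.Agent.H40.GU.pf_PC c_C1 c_CL c_BX c_IN c_VN

theorem a_CC : Pool.Agent.H66.GUA.T_CC := Pool.Agent.H31.GUA.pf_CC

theorem a_DL : Pool.Agent.H66.GUA.T_DL := Pool.Agent.H11.GUA.pf_DL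

theorem a_SR : Pool.Agent.H66.GUA.T_SR := Pool.Agent.H42.GUA.pf_SR

theorem a_KR : Pool.Agent.H66.GUA.T_KR := Pool.Agent.H42.GUA.pf_KR Pool.Agent.H31.DP.All.x_KA Pool.Agent.H31.DP.All.x_KB

theorem a_LA : Pool.Agent.H66.GUA.T_LA := Pool.Agent.H61.GUA.pf_LA a_CC a_DL a_SR a_KR

theorem a_TP : Pool.Agent.H66.GUA.T_TP := Pool.Agent.H61.GUA.pf_TP a_CC

theorem a_CN : Pool.Agent.H66.GUA.T_CN := Pool.Agent.H18.GUA.pf_CN

theorem a_EV : Pool.Agent.H66.GUA.T_EV := Pool.Agent.H83.GUA.pf_EV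

theorem a_P1 : Pool.Agent.H66.GUA.T_P1 := Pool.Agent.H90.GUA.pf_P1 a_LA a_CN a_TP a_EV

theorem a_AF : Pool.Agent.H66.GUA.T_AF := Pool.Agent.H79.GUA.pf_AF

theorem a_SW : Pool.Agent.H66.GUA.T_SW := Pool.Agent.H32.GUA.pf_SW a_P1 a_AF a_EV

theorem a_PR : Pool.Agent.H66.GUA.T_PR := Pool.Agent.H26.GUA.pf_PR a_CC

theorem a_GZ : Pool.Agent.H66.GUA.T_GZ := Pool.Agent.H90.GUA.pf_GZ Pool.Agent.H31.DP.All.x_GV

theorem a_CT : Pool.Agent.H66.GUA.T_CT := Pool.Agent.H79.GUA.pf_CT a_PR a_GZ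

theorem a_HO : Pool.Agent.H66.GUA.T_HO := Pool.Agent.H79.GUA.pf_HO a_CT Pool.Agent.H31.DP.All.x_CU

theorem a_DS : Pool.Agent.H66.GUA.T_DS := Pool.Agent.H18.GUA.pf_DS

theorem a_RH : Pool.Agent.H66.GUA.T_RH := Pool.Agent.H83.GUA.pf_RH a_DS

theorem a_GE : Pool.Agent.H66.GUA.T_GE := Pool.Agent.H46.GUA.pf_GE

theorem a_PH : Pool.Agent.H66.GUA.T_PH := Pool.Agent.H74.GUA.pf_PH a_DS a_RH a_GE

theorem a_GI : Pool.Agent.H66.GUA.T_GI := Pool.Agent.H32.GUA.pf_GI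

theorem a_KN : Pool.Agent.H66.GUA.T_KN := Pool.Agent.H88.GUA.pf_KN a_DS Pool.Agent.H31.DPD.All.x_ND

theorem a_GB : Pool.Agent.H66.GUA.T_GB := Pool.Agent.H66.GUA.pf_GB Pool.Agent.H31.DP.All.x_PG a_SW a_HO a_PH

theorem a_GA : Pool.Agent.H28.GU.T_GA := Pool.Agent.H66.GUA.pf_GA a_GB a_GI a_KN

theorem f_SP : Pool.Agent.H28.GU.T_SP := Pool.Agent.H34.GU.pf_SP Pool.Agent.H31.DPD.All.x_MK a_GA c_PC

theorem f_BR : Pool.Agent.H31.GUF.F_BR := Pool.Agent.H39.GUF.pf_BR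

theorem f_ST : Pool.Agent.H31.GUF.F_ST := Pool.Agent.H50.GUF.pf_ST f_SP f_BR

theorem f_B2 : Pool.Agent.H31.GUF.F_B2 := Pool.Agent.H31.GUF.pf_B2 c_HF f_BR

theorem f_CG : Pool.Agent.H31.GUF.F_CG := Pool.Agent.H31.GUF.pf_CG f_ST f_B2 Pool.Agent.H31.DP.All.x_T1

theorem f_CH : Pool.Agent.H31.GUF.F_CH := Pool.Agent.H31.GUF.pf_CH f_CG Pool.Agent.H31.DP.All.x_M1

theorem f_PL : Pool.Agent.H31.GUF.F_PL := Pool.Agent.H31.GUF.pf_PL x_LAM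

theorem f_AP : Pool.Agent.H31.GUF.F_AP := Pool.Agent.H36.GUF.pf_AP f_PL Pool.Agent.H31.DPD.All.x_ST

theorem f_NP : Pool.Agent.H31.GUF.F_NP := Pool.Agent.H34.GUF.pf_NP f_AP

theorem f_BF : Pool.Agent.H31.GUF.F_BF := Pool.Agent.H79.GUF.pf_BF Pool.Agent.H31.DP.All.x_GV

theorem f_LI : Pool.Agent.H31.GUF.F_LI := Pool.Agent.H79.GUF.pf_LI f_BF

theorem f_F0 : Pool.Agent.H31.GUF.F_F0 := Pool.Agent.H35.GUF.pf_F0 f_CH f_LI Pool.Agent.H31.DP.All.x_MU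

theorem f_FN : Pool.Agent.H31.GUF.F_FN := Pool.Agent.H74.GUF.pf_FN f_F0 f_NP

theorem g_BRG : Pool.Agent.H28.GUG.G_BR := Pool.Agent.H33.GUG.pf_BRG

theorem g_GVG : Pool.Agent.H28.GUG.G_GV := Pool.Agent.H33.GUG.pf_GVG c_BC

theorem g_LIG : Pool.Agent.H28.GUG.G_LI := Pool.Agent.H79.GUC.pf_LIG g_BRG g_GVG

theorem g_F0G : Pool.Agent.H28.GUG.G_F0 := Pool.Agent.H18.GUG.pf_F0G f_CH g_LIG Pool.Agent.H31.DP.All.x_MU

theorem g_FNG : Pool.Agent.H28.GUG.G_FN := Pool.Agent.H35.GUG.pf_FNG g_F0G f_NP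

end Pool.Agent.H31.GUF.All
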