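import Pool.Agent.H31.DP.Targets2
import Pool.Agent.H31.DPD.Targets
import Pool.Agent.H28.GU.TargetsC
import Pool.Agent.H28.GU.TargetsS

/-!
Definitions for part F of the project GU (Gowers uniformity of the pair correlations) on
`MP_c59857_nt`.
-/

set_option autoImplicit false

open Finset Filter Topology

namespace Pool.Agent.H31.GUF

open Pool.Agent.H91.LF (lz Bdd Mean sqw)
open Pool.Agent.H24.T2 (Pset box cub)
open Pool.Agent.H31.DP

/-- The normalised uniformity norm (to the power `2 ^ k`) of `g` on `[1, N]`: the sum of the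
products of the values of `g` (conjugated at the odd vertices) over the cubes of dimension `k`
in `[1, N]`, divided by `N ^ (k + 1)`. -/
noncomputable def UU (k N : ℕ) (g : ℤ → ℂ) : ℝ :=
  (Uc N k (Finset.Icc (1 : ℤ) N) g).re / (N : ℝ) ^ (k + 1)

/-- The product of the Liouville function at the points `n + h i`. -/
noncomputable def gl {l : ℕ} (h : Fin l → ℕ) (n : ℤ) : ℂ := ((FF h 1 n : ℝ) : ℂ)

/-- The value at `t` of the linear form with coefficients `b`. -/
def dot {R : ℕ} (b t : Fin R → ℤ) : ℤ := ∑ i, b i * t i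

/-- The product of the Liouville function at the points `n + h i` has small sums over the
progressions of modulus at most `K` in `[1, N]`. -/
def AS {l : ℕ} (h : Fin l → ℕ) (K N : ℕ) : Prop :=
  ∀ q n₀ M : ℕ, 1 ≤ q → q ≤ K → M ≤ N →
    |∑ n ∈ (Finset.Icc 1 M).filter (fun n : ℕ => n ≡ n₀ [MOD q]), FF h 1 (n : ℤ)| ≤ (N : ℝ) / K

/-- The product of the Liouville function at the points `n + β i` with an odd exponent. -/
noncomputable def Fo {r : ℕ} (β : Fin r → ℤ) (δ : Fin r → ℕ) (n : ℤ) : ℝ :=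
  ∏ i ∈ Finset.univ.filter (fun i => Odd (δ i)),
    (-1 : ℝ) ^ (ArithmeticFunction.cardFactors (n + β i).toNat)

/-- The product `Fo` has small sums over the progressions of modulus at most `K` in `[1, K N]`. -/
def NoObs {r : ℕ} (β : Fin r → ℤ) (δ : Fin r → ℕ) (K N : ℕ) : Prop :=
  ∀ q n₀ M : ℕ, 1 ≤ q → q ≤ K → M ≤ K * N →
    |∑ n ∈ (Finset.Icc 1 M).filter (fun n : ℕ => n ≡ n₀ [MOD q]), Fo β δ (n : ℤ)| ≤ (N : ℝ) / K

open Classical in
/-- A scale at which the product of the problem along the form `n + b₀ . t` correlates with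
bounded functions along the forms `n + b j . t`, for many `t`. -/
def Bad {r R J : ℕ} (β : Fin r → ℤ) (δ : Fin r → ℕ) (b₀ : Fin R → ℤ) (b : Fin J → Fin R → ℤ)
    (η : ℝ) (N : ℕ) : Prop :=
  ∃ F : Fin J → ℤ → ℂ, (∀ j m, ‖F j m‖ ≤ 1) ∧
    η * (N : ℝ) ^ R < (((box R N).filter (fun t => η * N <
      ‖∑ n ∈ Finset.Icc (1 : ℤ) N, ((fz β δ (n + dot b₀ t) : ℝ) : ℂ) *
        ∏ j, F j (n + dot (b j) t)‖)).card : ℝ)

end Pool.Agent.H31.GUF
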