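import Pool.Agent.H31.GUF.Defs

/-!
Statements of the modules of part F of the project GU (Gowers uniformity of the pair
correlations) on `MP_c59857_nt`.
-/

set_option autoImplicit false

open Finset Filter Topology

namespace Pool.Agent.H31.GUF

open Pool.Agent.H91.LF (lz Bdd Mean sqw)
open Pool.Agent.H24.T2 (Pset box cub)
open Pool.Agent.H31.DP
open Pool.Agent.H28.GU (Gw gG)

/-! ## The chain of the steps -/

/-- [BR] The Gowers norms on `ZMod q` and the cubes of integers. -/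
def F_BR : Prop :=
  ∀ (l : ℕ) (h : Fin l → ℕ) (k N q : ℕ) [NeZero q], 2 * N < q →
    Gw k (gG q h N) = (Uc N k (Finset.Icc (1 : ℤ) N) (gl h)).re

open Classical in
/-- [ST] The induction step in terms of `UU`. -/
def F_ST : Prop :=
  ∀ (d l : ℕ) (h : Fin l → ℕ) (δ ρ : ℝ), 1 ≤ d → 0 < δ → 0 < ρ →
    ∃ δ' : ℝ, 0 < δ' ∧ ∃ K : ℕ, ∀ x y : ℕ, 0 < x → K * x ≤ y →
      ∑ N ∈ (Finset.Icc x y).filter (fun N : ℕ => δ ≤ UU (d + 2) N (gl h) ∧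
        UU (d + 1) N (gl h) < δ'), (1 / (N : ℝ)) ≤ ρ * Real.log ((y : ℝ) / x)

/-- [B2] The uniformity norm of order two and the Fourier coefficients. -/
def F_B2 : Prop :=
  ∀ (l : ℕ) (h : Fin l → ℕ) (N : ℕ) (E : ℝ), (∀ θ : ℝ, ‖Sg h N θ‖ ≤ E) →
    (Uc N 2 (Finset.Icc (1 : ℤ) N) (gl h)).re ≤ N * E ^ 2

open Classical in
/-- [CG] The chain of the steps, every order: the only obstructions are on the major arcs. -/
def F_CG : Prop :=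
  ∀ (k l : ℕ) (h : Fin l → ℕ) (δ ρ : ℝ), 2 ≤ k → 0 < δ → 0 < ρ →
    ∃ ε : ℝ, 0 < ε ∧ ∃ K : ℕ, ∀ x y : ℕ, 0 < x → K * x ≤ y →
      ∑ N ∈ (Finset.Icc x y).filter (fun N : ℕ => δ ≤ UU k N (gl h) ∧
        ∀ θ : ℝ, ¬ Minor K N θ → ‖Sg h N θ‖ < ε * N), (1 / (N : ℝ)) ≤
          ρ * Real.log ((y : ℝ) / x)

open Classical in
/-- [CH] Gowers uniformity of every order, if there is no obstruction on progressions. -/
def F_CH : Prop :=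
  ∀ (k l : ℕ) (h : Fin l → ℕ) (δ ρ : ℝ), 2 ≤ k → 0 < δ → 0 < ρ →
    ∃ K : ℕ, 0 < K ∧ ∀ x y : ℕ, 0 < x → K * x ≤ y →
      ∑ N ∈ (Finset.Icc x y).filter (fun N : ℕ => AS h K N ∧ δ ≤ UU k N (gl h)),
        (1 / (N : ℝ)) ≤ ρ * Real.log ((y : ℝ) / x)

/-! ## Pairs on progressions -/

/-- [PL] Pairs of the Liouville function in residue classes, on average over the scales. -/
def F_PL : Prop :=
  ∀ (l : ℕ) (h : Fin l → ℕ) (q n₀ : ℕ) (ρ : ℝ), (l = 1 ∨ l = 2) → Function.Injective h →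
    0 < q → 0 < ρ → ∃ K : ℕ, ∀ x y : ℕ, 0 < x → K * x ≤ y →
      ∑ N ∈ Finset.Icc x y, (1 / (N : ℝ)) *
        |(∑ n ∈ (Finset.Icc 1 N).filter (fun n : ℕ => n ≡ n₀ [MOD q]), FF h 1 (n : ℤ)) / N| ≤
        ρ * Real.log ((y : ℝ) / x)

open Classical in
/-- [AP] Pairs of the Liouville function have no obstruction on progressions. -/
def F_AP : Prop :=
  ∀ (l : ℕ) (h : Fin l → ℕ) (L : ℕ) (ρ : ℝ), (l = 1 ∨ l = 2) → Function.Injective h →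
    0 < L → 0 < ρ → ∃ K : ℕ, ∀ x y : ℕ, 0 < x → K * x ≤ y →
      ∑ N ∈ (Finset.Icc x y).filter (fun N : ℕ => ¬ AS h L N), (1 / (N : ℝ)) ≤
        ρ * Real.log ((y : ℝ) / x)

open Classical in
/-- [NP] The same for the pairs of the problem. -/
def F_NP : Prop :=
  ∀ (r : ℕ) (β : Fin r → ℤ) (δ : Fin r → ℕ) (L : ℕ) (ρ : ℝ), Pair β δ → 0 < L → 0 < ρ →
    ∃ K : ℕ, ∀ x y : ℕ, 0 < x → K * x ≤ y →
      ∑ N ∈ (Finset.Icc x y).filter (fun N : ℕ => ¬ NoObs β δ L N), (1 / (N : ℝ)) ≤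
        ρ * Real.log ((y : ℝ) / x)

/-! ## Linear forms -/

/-- [BF] A bilinear form is controlled by a uniformity norm. -/
def F_BF : Prop :=
  ∀ (J C : ℕ) (κ : Fin J → ℤ), (∀ j, κ j ≠ 0) → 0 < C → ∃ C' : ℝ, 0 < C' ∧ ∀ N : ℕ, 0 < N →
    ∀ (g c : ℤ → ℂ) (F : Fin J → ℤ → ℂ), (∀ x, ‖c x‖ ≤ 1) → (∀ j m, ‖F j m‖ ≤ 1) →
      ‖∑ m ∈ Finset.Icc (1 : ℤ) ((C * N : ℕ) : ℤ), g m *
        ∑ x ∈ Finset.Icc (1 : ℤ) N, c x * ∏ j, F j (m + κ j * x)‖ ^ (2 ^ (J + 1)) ≤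
        C' * (N : ℝ) ^ (2 * 2 ^ (J + 1)) * UU (J + 1) (C * N) g

/-- [LI] Linear configurations are controlled by the uniformity norms of one function. -/
def F_LI : Prop :=
  ∀ (R J C : ℕ) (b₀ : Fin R → ℤ) (b : Fin J → Fin R → ℤ) (η : ℝ), (∀ j, b j ≠ b₀) →
    (1 + ∑ i, |b₀ i| ≤ (C : ℤ)) → 0 < η → ∃ ε : ℝ, 0 < ε ∧ ∀ N : ℕ, 0 < N → ∀ (g : ℤ → ℂ),
      (∀ m, ‖g m‖ ≤ 1) → (∀ m, m < 1 → g m = 0) → UU (J + 2) (C * N) g ≤ ε →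
      UU (J + 2) N g ≤ ε → ∀ (F : Fin J → ℤ → ℂ) (θ : ℝ), (∀ j m, ‖F j m‖ ≤ 1) →
        ∑ t ∈ box R N, ‖∑ n ∈ Finset.Icc (1 : ℤ) N, g (n + dot b₀ t) * ee (n * θ) *
          ∏ j, F j (n + dot (b j) t)‖ ≤ η * (N : ℝ) ^ (R + 1)

/-! ## The final theorem -/

open Classical in
/-- [F0] The final theorem for natural shifts, without obstruction on progressions. -/
def F_F0 : Prop :=
  ∀ (r : ℕ) (h : Fin r → ℕ) (δ : Fin r → ℕ) (R J : ℕ) (b₀ : Fin R → ℤ) (b : Fin J → Fin R → ℤ)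
    (η ρ : ℝ), (∀ i, 1 ≤ δ i) → (∀ j, b j ≠ b₀) → 0 < η → 0 < ρ →
    ∃ K : ℕ, 0 < K ∧ ∀ x y : ℕ, 0 < x → K * x ≤ y →
      ∑ N ∈ (Finset.Icc x y).filter (fun N : ℕ => NoObs (fun i => (h i : ℤ)) δ K N ∧
        Bad (fun i => (h i : ℤ)) δ b₀ b η N), (1 / (N : ℝ)) ≤ ρ * Real.log ((y : ℝ) / x)

open Classical in
/-- [FN] The final theorem: linear configurations with arbitrary bounded functions. -/
def F_FN : Prop :=
  ∀ (r : ℕ) (β : Fin r → ℤ) (δ : Fin r → ℕ) (R J : ℕ) (b₀ : Fin R → ℤ) (b : Fin J → Fin R → ℤ)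
    (η ρ : ℝ), (∀ i, 1 ≤ δ i) → (∀ j, b j ≠ b₀) → 0 < η → 0 < ρ →
    ∃ K : ℕ, ∀ x y : ℕ, 0 < x → K * x ≤ y →
      ∑ N ∈ (Finset.Icc x y).filter (fun N : ℕ => (Pair β δ ∨ NoObs β δ K N) ∧
        Bad β δ b₀ b η N), (1 / (N : ℝ)) ≤ ρ * Real.log ((y : ℝ) / x)

end Pool.Agent.H31.GUF
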